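import Pool.Agent.Run7.h390.OQ.Red

/-!
# Reduction to finitely generated subgroups without left-orderable quotients

Let `G` be any group. A part of an element `α` of the complex group algebra in a coset of a subgroup is
considered as an element of the group algebra of the subgroup (up to translation).

* (1) Every nonzero `α` has a nonzero part `β`, with support `S = (supp α) ∩ t L`, where `L` is the subgroup
  generated by the quotients of the elements of `S`, such that `L` has no nontrivial left-orderable
  quotient (in particular `L` is finitely generated with finite abelianization) and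
  `dim ker α ≤ dim ker β`. So an element with nonzero kernel and as few terms as possible generates, after
  translation, a group without nontrivial left-orderable quotients.
* (2) Suppose that `dim ker β ≤ 1 - c` for all finitely generated subgroups `L` of `G` without
  nontrivial left-orderable quotients and all nonzero `β` in the group algebra of `L`. Then the same
  inequality holds for all nonzero elements of the group algebra of `G`, and for an `m × l` matrix which
  contains `p` nonzero entries at `(i_a, j_a)` with zeros at `(i_a, j_b)` for `a < b`, the dimension of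
  the kernel of the right multiplication on `ℓ²(G)^m` is at most `m - p c`.
* (3) This applies with `c = 1 / k` if all these `L` have a subgroup of index at most `k` which satisfies
  the analytic zero divisor conjecture or is locally indicable, for example if all `L` are finite of order
  at most `k`.
* (4) If all these `L` satisfy the analytic zero divisor conjecture, then the dimension of the kernel is
  the integer `m - p` for the matrices of (2) with `p = m` or `p = l`, for example for all nonzero
  matrices with one row or one column. For `m = l = 1` this is the analytic zero divisor conjecture for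
  `G`.

The theorem on left-orderable groups is due to Linnell; the case of one relatively convex subgroup is a
theorem of the starting library (`N309.LO.order_le`), which is used here. For the trivial class, (4) and
the theorem of Burns and Hale are the theorem of Linnell.

Proof of (1): Let `f` be a nontrivial homomorphism from the subgroup `L` generated by the quotients of the
support to a left-ordered group. The part of `α` where `f` (of the quotient with a fixed element) is
smallest has a kernel which is not smaller, and it has fewer terms. The dimensions of the kernels of an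
element of the group algebra of `L` over `L` and over `G` are the same.
-/

set_option autoImplicit false

universe u

namespace Pool.Agent.Results.MP_c5ea68_al.OrderableQuotients

/-- The kernel of right multiplication by the matrix `A` over the complex group ring on row vectors
of length `m` over `l2(G)`: all square-summable `x` with `x A = 0`. -/
def kernel {G : Type u} [Group G] {m l : ℕ} (A : Matrix (Fin m) (Fin l) (G →₀ ℂ)) :
    Set (lp (fun _ : Fin m × G => ℂ) 2) :=
  {x | ∀ (j : Fin l) (g : G),
    ∑ k : Fin m, ∑ h ∈ (A k j).support, x (k, g * h⁻¹) * A k j h = 0}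

open Classical in
/-- The von Neumann dimension of that kernel: the sum over `i` of one minus the square of the
distance from the basis vector at `(i, 1)` to the kernel, that is, the sum of the squared lengths
of the projections of these vectors to the kernel. -/
noncomputable def kerDim {G : Type u} [Group G] {m l : ℕ}
    (A : Matrix (Fin m) (Fin l) (G →₀ ℂ)) : ℝ :=
  ∑ i : Fin m, (1 - Metric.infDist
    (lp.single (E := fun _ : Fin m × G => ℂ) 2 (i, (1 : G)) (1 : ℂ)) (kernel A) ^ 2)

/-- All square-summable `f` with `α * f = 0`. -/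
def kernelOf {G : Type u} [Group G] (α : G →₀ ℂ) : Set (lp (fun _ : G => ℂ) 2) :=
  {f | ∀ g : G, ∑ k ∈ α.support, α k * f (k⁻¹ * g) = 0}

open Classical in
/-- The von Neumann dimension of the kernel of left convolution by `α`. -/
noncomputable def dimKer {G : Type u} [Group G] (α : G →₀ ℂ) : ℝ :=
  1 - Metric.infDist (lp.single 2 (1 : G) (1 : ℂ)) (kernelOf α) ^ 2

/-- The analytic zero divisor conjecture holds for the group `H`: `α * f` is nonzero for every nonzero
`α` and every nonzero square-summable `f`. -/
def AZD (H : Type u) [Group H] : Prop :=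
  ∀ α : H →₀ ℂ, α ≠ 0 → ∀ f : H → ℂ, Memℓp f 2 → f ≠ 0 →
    ∃ g : H, ∑ k ∈ α.support, α k * f (k⁻¹ * g) ≠ 0

/-- A group is locally indicable if every nontrivial finitely generated subgroup has a nontrivial
homomorphism to the group of integers. -/
def LocallyIndicable (H : Type u) [Group H] : Prop :=
  ∀ K : Subgroup H, K.FG → K ≠ ⊥ → ∃ φ : K →* Multiplicative ℤ, ∃ k, φ k ≠ 1

/-- The group `L` has no nontrivial left-orderable quotient: all homomorphisms to groups with a
left-invariant total order are trivial. -/
def NoOrderableQuotient (L : Type u) [Group L] : Prop :=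
  ∀ (Q : Type u) [Group Q] [LinearOrder Q], (∀ a b c : Q, a ≤ b → c * a ≤ c * b) →
    ∀ (f : L →* Q) (x : L), f x = 1

/-- The subgroup generated by the quotients of the elements of `S`. -/
def quotients {G : Type u} [Group G] (S : Finset G) : Subgroup G :=
  Subgroup.closure {z | ∃ x ∈ S, ∃ y ∈ S, z = x⁻¹ * y}

open Classical in
/-- The part of `α` supported in `S`. -/
noncomputable def part {G : Type u} (α : G →₀ ℂ) (S : Finset G) : G →₀ ℂ := α.filter (· ∈ S)

/-- The matrix contains a triangular pattern of length `p`: nonzero entries at `(i_a, j_a)`, `a < p`,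
and zeros at `(i_a, j_b)` for `a < b`. For `p = 1` this means that the matrix is not zero. -/
def Pattern {G : Type u} [Group G] {m l : ℕ} (A : Matrix (Fin m) (Fin l) (G →₀ ℂ)) (p : ℕ) : Prop :=
  ∃ (i : Fin p → Fin m) (j : Fin p → Fin l), (∀ a, A (i a) (j a) ≠ 0) ∧
    ∀ a b, a < b → A (i a) (j b) = 0

theorem rkM_eq_kerDim {G : Type u} [Group G] {m l : ℕ} (A : Matrix (Fin m) (Fin l) (G →₀ ℂ)) :
    Run7.h266.AZ.rkM (K := Fin m) (L := Fin l) A = m - kerDim A := by
  refine (Run7.h266.AZ.rkM_eq (K := Fin m) (L := Fin l) A).trans ?_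
  rw [Fintype.card_fin]
  congr 1

theorem kd_eq {G : Type u} [Group G] (α : G →₀ ℂ) : Run7.h390.OQ.kd α = dimKer α :=
  (W649.ZL.kerDim_eq_vd α).symm

theorem azd_inj {H : Type u} [Group H] (h : AZD H) (β : H →₀ ℂ) (h0 : β ≠ 0) :
    Function.Injective (W649.ZL.cop β) := (W649.ZL.regular_iff β).1 (h β h0)

theorem azd_kd {H : Type u} [Group H] (h : AZD H) (β : H →₀ ℂ) (h0 : β ≠ 0) : dimKer β = 0 := by
  rw [← kd_eq]
  exact W649.ZL.vd_ker_of_injective _ (azd_inj h β h0)

theorem main {G : Type u} [Group G] (c : ℝ)
    (h : ∀ L : Subgroup G, L.FG → NoOrderableQuotient L → ∀ β : L →₀ ℂ, β ≠ 0 → dimKer β ≤ 1 - c)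
    (m l p : ℕ) (A : Matrix (Fin m) (Fin l) (G →₀ ℂ)) (hA : Pattern A p) :
    kerDim A ≤ m - p * c := by
  obtain ⟨i, j, h0, htri⟩ := hA
  have h1 := Run7.h266.AZ.triangular (K := Fin m) (L := Fin l) A p i j htri
  rw [rkM_eq_kerDim] at h1
  have h2 : ∀ a, c ≤ Run7.h266.AZ.rk (Run7.h266.AZ.iv (A (i a) (j a))) := by
    intro a
    have hne : Run7.h266.AZ.iv (A (i a) (j a)) ≠ 0 := by
      intro h3
      apply h0 a
      ext x
      have h4 := congrArg (fun F : G →₀ ℂ => F x⁻¹) h3
      simp only [Run7.h266.AZ.iv_apply, inv_inv] at h4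
      exact h4
    have h3 := Run7.h390.OQ.gap_of c (fun L hL hN β hβ => by
      rw [kd_eq]
      exact h L hL hN β hβ) _ hne
    have h4 : Run7.h266.AZ.rk (Run7.h266.AZ.iv (A (i a) (j a)))
        = 1 - Run7.h390.OQ.kd (Run7.h266.AZ.iv (A (i a) (j a))) := Run7.h266.AZ.rk_eq _
    linarith
  have h3 : (p : ℝ) * c ≤ ∑ a, Run7.h266.AZ.rk (Run7.h266.AZ.iv (A (i a) (j a))) := by
    calc (p : ℝ) * c = ∑ _a : Fin p, c := by
          rw [Finset.sum_const, Finset.card_univ, Fintype.card_fin, nsmul_eq_mul]
      _ ≤ _ := Finset.sum_le_sum fun a _ => h2 a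
  linarith

/-- **Reduction to subgroups without left-orderable quotients.** -/
theorem result {G : Type u} [Group G] :
    (∀ α : G →₀ ℂ, α ≠ 0 → ∃ S : Finset G, S.Nonempty ∧ S ⊆ α.support ∧
      NoOrderableQuotient (quotients S) ∧
      (∀ x ∈ α.support, ∀ y ∈ S, y⁻¹ * x ∈ quotients S → x ∈ S) ∧
      dimKer α ≤ dimKer (part α S)) ∧
    (∀ c : ℝ, (∀ L : Subgroup G, L.FG → NoOrderableQuotient L →
        ∀ β : L →₀ ℂ, β ≠ 0 → dimKer β ≤ 1 - c) →
      (∀ α : G →₀ ℂ, α ≠ 0 → dimKer α ≤ 1 - c) ∧
      ∀ (m l p : ℕ) (A : Matrix (Fin m) (Fin l) (G →₀ ℂ)), Pattern A p → kerDim A ≤ m - p * c) ∧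
    (∀ k : ℕ, (∀ L : Subgroup G, L.FG → NoOrderableQuotient L →
        ∃ H : Subgroup L, H.index ≠ 0 ∧ H.index ≤ k ∧ (AZD H ∨ LocallyIndicable H)) →
      (∀ α : G →₀ ℂ, α ≠ 0 → dimKer α ≤ 1 - 1 / k) ∧
      ∀ (m l p : ℕ) (A : Matrix (Fin m) (Fin l) (G →₀ ℂ)), Pattern A p → kerDim A ≤ m - p / k) ∧
    ((∀ L : Subgroup G, L.FG → NoOrderableQuotient L → AZD L) →
      AZD G ∧ ∀ (m l p : ℕ) (A : Matrix (Fin m) (Fin l) (G →₀ ℂ)), Pattern A p →
        (p = m ∨ p = l) → kerDim A = m - p) := by
  have hgap : ∀ c : ℝ, (∀ L : Subgroup G, L.FG → NoOrderableQuotient L →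
      ∀ β : L →₀ ℂ, β ≠ 0 → dimKer β ≤ 1 - c) → ∀ α : G →₀ ℂ, α ≠ 0 → dimKer α ≤ 1 - c := by
    intro c h α h0
    rw [← kd_eq]
    exact Run7.h390.OQ.gap_of c (fun L hL hN β hβ => by
      rw [kd_eq]
      exact h L hL hN β hβ) _ h0
  refine ⟨?_, ?_, ?_, ?_⟩
  · intro α h0
    obtain ⟨S, h1, h2, h3, h4, h5⟩ := Run7.h390.OQ.reduce _ α rfl h0
    rw [kd_eq, kd_eq] at h5
    exact ⟨S, h1, h2, h3, h4, h5⟩
  · intro c h
    exact ⟨hgap c h, fun m l p A hA => main c h m l p A hA⟩
  · intro k h
    have h1 : ∀ L : Subgroup G, L.FG → NoOrderableQuotient L →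
        ∀ β : L →₀ ℂ, β ≠ 0 → dimKer β ≤ 1 - 1 / (k : ℝ) := by
      intro L hL hN β hβ
      obtain ⟨H, hH1, hH2, hH3⟩ := h L hL hN
      rw [← kd_eq]
      apply Run7.h390.OQ.index_le H hH1 _ k hH2 β hβ
      rcases hH3 with hH3 | hH3
      · intro γ hγ
        exact azd_inj hH3 γ hγ
      · intro γ hγ
        exact W649.ZL.LI_injective _ H hH3 γ rfl hγ
    refine ⟨hgap _ h1, fun m l p A hA => ?_⟩
    have h2 := main _ h1 m l p A hA
    rwa [mul_one_div] at h2
  · intro h
    have h1 : ∀ L : Subgroup G, L.FG → NoOrderableQuotient L →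
        ∀ β : L →₀ ℂ, β ≠ 0 → dimKer β ≤ 1 - 1 := by
      intro L hL hN β hβ
      rw [azd_kd (h L hL hN) β hβ, sub_self]
    refine ⟨?_, fun m l p A hA hp => ?_⟩
    · intro α h0
      apply (W649.ZL.regular_iff α).2
      apply W649.ZL.injective_of_vd_eq_zero _ (W649.ZL.cop_eqv α)
      have h2 := hgap 1 h1 α h0
      rw [← kd_eq, sub_self] at h2
      exact h2
    · have h2 := main 1 h1 m l p A hA
      rw [mul_one] at h2
      apply le_antisymm h2
      have h3 : Run7.h266.AZ.rkM (K := Fin m) (L := Fin l) A = m - kerDim A := rkM_eq_kerDim A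
      have h4 : Run7.h266.AZ.rkM (K := Fin m) (L := Fin l) A
          = (Fintype.card (Fin m) : ℝ) - W649.ZL.kerDimM (K := Fin m) (L := Fin l) A :=
        Run7.h266.AZ.rkM_eq (K := Fin m) (L := Fin l) A
      rw [Fintype.card_fin] at h4
      have h5 : kerDim A = W649.ZL.kerDimM (K := Fin m) (L := Fin l) A := by linarith
      rw [h5]
      rcases hp with hp | hp
      · rw [hp, sub_self]
        exact N309.LO.kerDimM_nonneg (K := Fin m) (L := Fin l) A
      · have h6 := N309.LO.kerDimM_ge (K := Fin m) (L := Fin l) A
        rw [Fintype.card_fin, Fintype.card_fin] at h6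
        rw [hp]
        exact h6

end Pool.Agent.Results.MP_c5ea68_al.OrderableQuotients
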